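import Pool.Agent.Helper92.TN.GoalsF
import Pool.Agent.Helper38.T3.DIV

/-!
# Project TN (MP_a41896_nt), packet NISO
-/

set_option autoImplicit false

namespace Pool.Agent.Helper38.TN.NISO

open WeierstrassCurve
open Pool.Agent.Helper29.BL Pool.Agent.Helper42.SG
open Pool.Agent.Helper60.T3 (WL IP zd)
open Pool.Agent.Helper42.TN (NonIsog)
open Pool.Agent.Helper92.TN

/-- a square root of an element of an algebraically closed subfield lies in it -/
theorem sqrt_mem {Ω₁ Ω₂ : Type} [Field Ω₁] [Field Ω₂] [Algebra Ω₁ Ω₂]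
    (E : IntermediateField Ω₁ Ω₂) [IsAlgClosed E] (z : Ω₂) (h : z ^ 2 ∈ E) : z ∈ E := by
  have h1 : z ∈ Set.range (algebraMap E Ω₂) := by
    apply Pool.Agent.Helper38.T3.DIV.mem_range_of_root z
      (Polynomial.X ^ 2 - Polynomial.C (⟨z ^ 2, h⟩ : E))
      (Polynomial.monic_X_pow_sub_C _ two_ne_zero)
    simp only [map_sub, map_pow, Polynomial.aeval_X, Polynomial.aeval_C]
    exact sub_self _
  obtain ⟨y, hy⟩ := h1
  rw [← hy]
  exact y.2

section

variable {K Ω₁ Ω₂ : Type} [Field K] [Field Ω₁] [Field Ω₂] [Algebra K Ω₁] [Algebra Ω₁ Ω₂]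
  [Algebra K Ω₂] [IsScalarTower K Ω₁ Ω₂] (E : IntermediateField Ω₁ Ω₂)

include E in
theorem K_mem (a : K) : algebraMap K Ω₂ a ∈ E := by
  rw [IsScalarTower.algebraMap_apply K Ω₁ Ω₂]
  exact E.algebraMap_mem _

theorem bf_mem (W : Affine K) (z : Ω₂) (hz : z ∈ E) : Bf (WL Ω₂ W) z ∈ E := by
  have h4 : (4 : Ω₂) ∈ E := by
    have := natCast_mem E 4
    simpa using this
  have h2 : (2 : Ω₂) ∈ E := by
    have := natCast_mem E 2
    simpa using this
  unfold Bf
  rw [WeierstrassCurve.map_b₂, WeierstrassCurve.map_b₄, WeierstrassCurve.map_b₆]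
  exact add_mem (add_mem (add_mem (mul_mem h4 (pow_mem hz 3))
    (mul_mem (K_mem E _) (pow_mem hz 2))) (mul_mem (mul_mem h2 (K_mem E _)) hz)) (K_mem E _)

/-- `y ∈ E` if `x, ψ ∈ E` -/
theorem y_mem [CharZero Ω₂] (W : Affine K) (x y : Ω₂) (hx : x ∈ E)
    (hp : 2 * y + (WL Ω₂ W).a₁ * x + (WL Ω₂ W).a₃ ∈ E) : y ∈ E := by
  have h2 : (2 : Ω₂) ∈ E := by
    have := natCast_mem E 2
    simpa using this
  have ha1 : (WL Ω₂ W).a₁ ∈ E := K_mem E _
  have ha3 : (WL Ω₂ W).a₃ ∈ E := K_mem E _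
  have h3 : y = (2 * y + (WL Ω₂ W).a₁ * x + (WL Ω₂ W).a₃ - (WL Ω₂ W).a₁ * x -
      (WL Ω₂ W).a₃) / 2 := by
    field_simp
    ring
  rw [h3]
  exact div_mem (sub_mem (sub_mem hp (mul_mem ha1 hx)) ha3) h2

/-- `ψ ∈ E` if `x, y ∈ E` -/
theorem p_mem (W : Affine K) (x y : Ω₂) (hx : x ∈ E) (hy : y ∈ E) :
    2 * y + (WL Ω₂ W).a₁ * x + (WL Ω₂ W).a₃ ∈ E := by
  have h2 : (2 : Ω₂) ∈ E := by
    have := natCast_mem E 2
    simpa using this
  have ha1 : (WL Ω₂ W).a₁ ∈ E := K_mem E _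
  have ha3 : (WL Ω₂ W).a₃ ∈ E := K_mem E _
  exact add_mem (add_mem (mul_mem h2 hy) (mul_mem ha1 hx)) ha3

end

/-- intersection of the closures -/
theorem inter (hA : ACLA) (hB : ACLB) {Ω₁ Ω₂ : Type} [Field Ω₁] [Field Ω₂] [Algebra Ω₁ Ω₂]
    {τ : Type} [Fintype τ] [DecidableEq τ] (X : τ → Ω₂) (hX : AlgebraicIndependent Ω₁ X)
    (z : Ω₂) (h0 : z ∈ acl Ω₁ (Set.range X)) (h1 : ∀ b, z ∈ acl Ω₁ (X '' {c | c ≠ b})) :
    z ∈ acl Ω₁ (∅ : Set Ω₂) := by
  have hi := ((hB Ω₁ Ω₂).1 τ X).mp hX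
  have key : ∀ (n : ℕ) (T : Finset τ), T.card = n → z ∈ acl Ω₁ (X '' (T : Set τ)) →
      z ∈ acl Ω₁ (∅ : Set Ω₂) := by
    intro n
    induction n with
    | zero =>
      intro T hT h
      rw [Finset.card_eq_zero] at hT
      rw [hT] at h
      simpa using h
    | succ n ih =>
      intro T hT h
      obtain ⟨b, hb⟩ : T.Nonempty := by
        rw [← Finset.card_pos]
        omega
      apply ih (T.erase b) (by rw [Finset.card_erase_of_mem hb]; omega)
      by_contra hz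
      have h2 : insert (X b) (X '' ((T.erase b : Finset τ) : Set τ)) = X '' (T : Set τ) := by
        rw [← Set.image_insert_eq, ← Finset.coe_insert, Finset.insert_erase hb]
      rw [← h2] at h
      obtain ⟨-, -, hmono, hidem, hexch, -, -⟩ :=
        hA Ω₁ Ω₂ (X '' ((T.erase b : Finset τ) : Set τ)) (X '' (T : Set τ))
      have h3 := hexch z (X b) h hz
      obtain ⟨-, hsub, -, hidem2, -, -, -⟩ := hA Ω₁ Ω₂ (X '' {c | c ≠ b}) (∅ : Set Ω₂)
      have h4 : insert z (X '' ((T.erase b : Finset τ) : Set τ)) ⊆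
          (acl Ω₁ (X '' {c | c ≠ b}) : Set Ω₂) := by
        intro w hw
        rcases hw with rfl | ⟨c, hc, rfl⟩
        · exact h1 b
        · apply hsub
          refine ⟨c, ?_, rfl⟩
          have := Finset.mem_coe.mp hc
          exact Finset.ne_of_mem_erase this
      have h5 : acl Ω₁ (insert z (X '' ((T.erase b : Finset τ) : Set τ))) ≤
          acl Ω₁ ((acl Ω₁ (X '' {c | c ≠ b}) : Set Ω₂) ∪ ∅) :=
        (hA Ω₁ Ω₂ _ _).2.2.1 (h4.trans Set.subset_union_left)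
      rw [hidem2, Set.union_empty] at h5
      exact hi b (h5 h3)
  apply key _ Finset.univ rfl
  rwa [Finset.coe_univ, Set.image_univ]

theorem t (hA : ACLA) (hB : ACLB) : Helper92.TN.NISO := by
  intro K Ω₁ Ω₂ _ _ _ _ _ _ _ _ _ _ _ τ _ _ W W' hW hW' hN x S hx0 hind hS
  haveI : CharZero Ω₂ := charZero_of_injective_algebraMap (algebraMap K Ω₂).injective
  haveI : CharZero Ω₁ := charZero_of_injective_algebraMap (algebraMap K Ω₁).injective
  rcases hS with hS | ⟨hSx, hSp⟩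
  · rw [hS]
    exact ⟨0, map_zero _⟩
  rcases S with _ | ⟨x', y', hS'⟩
  · exact ⟨0, map_zero _⟩
  have hSx' : x' ∈ IntermediateField.adjoin Ω₁
    (Set.range (fun i => xc (x i)) ∪ Set.range (fun i => ps (x i))) := hSx
  have hSp' : 2 * y' + (WL Ω₂ W').a₁ * x' + (WL Ω₂ W').a₃ ∈ IntermediateField.adjoin Ω₁
    (Set.range (fun i => xc (x i)) ∪ Set.range (fun i => ps (x i))) := hSp
  have hSy' := y_mem _ W' x' y' hSx' hSp'
  show x' ∈ Set.range (algebraMap Ω₁ Ω₂)
  have hps : ∀ i, ps (x i) ^ 2 = Bf (WL Ω₂ (W i)) (xc (x i)) := by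
    intro i
    obtain ⟨P, hP⟩ : ∃ P, P = x i := ⟨_, rfl⟩
    have hP0 := hx0 i
    rw [← hP] at hP0 ⊢
    rcases P with _ | ⟨u, v, h⟩
    · exact absurd rfl hP0
    · exact Pool.Agent.Helper30.SGB.ps_sq (WL Ω₂ (W i)) u v h
  -- the closure in the set `A` contains the coordinates of the `x c`, `X c ∈ A`
  have hcl : ∀ (A : Set Ω₂) (c : τ), xc (x c) ∈ A → xc (x c) ∈ acl Ω₁ A ∧ ps (x c) ∈ acl Ω₁ A := by
    intro A c hc
    obtain ⟨-, hsub, -, -, -, hac, -⟩ := hA Ω₁ Ω₂ A A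
    haveI := hac inferInstance
    refine ⟨hsub hc, sqrt_mem _ _ ?_⟩
    rw [hps]
    exact bf_mem _ _ _ (hsub hc)
  have h0 : x' ∈ acl Ω₁ (∅ : Set Ω₂) := by
    apply inter hA hB (fun i => xc (x i)) hind
    · refine (IntermediateField.adjoin_le_iff.mpr ?_) hSx'
      rintro w (⟨c, rfl⟩ | ⟨c, rfl⟩)
      · exact (hcl (Set.range fun i => xc (x i)) c ⟨c, rfl⟩).1
      · exact (hcl (Set.range fun i => xc (x i)) c ⟨c, rfl⟩).2
    · intro b
      obtain ⟨E, hE⟩ : ∃ E : IntermediateField Ω₁ Ω₂,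
        E = acl Ω₁ ((fun i => xc (x i)) '' {c | c ≠ b}) := ⟨_, rfl⟩
      obtain ⟨-, -, -, -, -, hac, htr⟩ :=
        hA Ω₁ Ω₂ ((fun i => xc (x i)) '' {c | c ≠ b}) ((fun i => xc (x i)) '' {c | c ≠ b})
      have hac1 := hac inferInstance
      have htr1 := htr inferInstance (xc (x b))
      have hib := ((hB Ω₁ Ω₂).1 τ (fun i => xc (x i))).mp hind b
      haveI : IsScalarTower K E Ω₂ := IsScalarTower.of_algebraMap_eq fun a => rfl
      have hclb : ∀ c, c ≠ b → xc (x c) ∈ E ∧ ps (x c) ∈ E := by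
        intro c hc
        rw [hE]
        exact hcl _ c ⟨c, hc, rfl⟩
      rw [← hE] at hac1 htr1 hib ⊢
      have htr2 : Transcendental E (xc (x b)) := htr1.resolve_left hib
      obtain ⟨P, hP⟩ : ∃ P, P = x b := ⟨_, rfl⟩
      have hP0 := hx0 b
      rw [← hP] at hP0 htr2
      rcases P with _ | ⟨u, v, h⟩
      · exact absurd rfl hP0
      have hle : IntermediateField.adjoin Ω₁
          (Set.range (fun i => xc (x i)) ∪ Set.range (fun i => ps (x i))) ≤
          (IntermediateField.adjoin E ({u, v} : Set Ω₂)).restrictScalars Ω₁ := by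
        rw [IntermediateField.adjoin_le_iff]
        have hEm : ∀ w ∈ E, w ∈ (IntermediateField.adjoin E ({u, v} : Set Ω₂)) := by
          intro w hw
          exact (IntermediateField.adjoin E ({u, v} : Set Ω₂)).algebraMap_mem ⟨w, hw⟩
        have hu : u ∈ (IntermediateField.adjoin E ({u, v} : Set Ω₂)) :=
          IntermediateField.subset_adjoin E _ (by simp)
        have hv : v ∈ (IntermediateField.adjoin E ({u, v} : Set Ω₂)) :=
          IntermediateField.subset_adjoin E _ (by simp)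
        rintro w (⟨c, rfl⟩ | ⟨c, rfl⟩)
        · by_cases hc : c = b
          · subst hc
            show xc (x c) ∈ (IntermediateField.adjoin E ({u, v} : Set Ω₂))
            rw [← hP]
            exact hu
          · exact hEm _ (hclb c hc).1
        · by_cases hc : c = b
          · subst hc
            show ps (x c) ∈ (IntermediateField.adjoin E ({u, v} : Set Ω₂))
            rw [← hP]
            exact p_mem (IntermediateField.adjoin E ({u, v} : Set Ω₂)) (W c) u v hu hv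
          · exact hEm _ (hclb c hc).2
      have hx'm := hle hSx'
      have hy'm := hle hSy'
      haveI := hac1
      obtain ⟨e, he⟩ := hN b E Ω₂ u v x' y' htr2 h.1 hS'.1 hx'm hy'm
      rw [← he]
      exact e.2
  obtain ⟨hmem, -, -, -, -, -, -⟩ := hA Ω₁ Ω₂ (∅ : Set Ω₂) ∅
  have h1 := (hmem x').mp h0
  rw [IntermediateField.adjoin_empty] at h1
  have h2 : IsAlgebraic Ω₁ x' := h1.restrictScalars Ω₁
  have h3 := IsAlgClosed.degree_eq_one_of_irreducible Ω₁ (minpoly.irreducible h2.isIntegral)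
  exact minpoly.mem_range_of_degree_eq_one Ω₁ x' h3

end Pool.Agent.Helper38.TN.NISO
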